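import Mathlib
import Pool.Agent.Lib.MP_8ac08c_co.Def
import Pool.Agent.Lib.MP_8ac08c_co.Prod

namespace Pool.Agent.Results.MP_8ac08c_co.ExplicitValue

open Pool.Agent.Lib.MP_8ac08c_co

/-- Closed formula: let `H` be a finite abelian group of odd order `h` dividing `n`, with
`n ≥ 10^6 h^4` (so that `H × ZMod n` has exponent `n`). If `4 ∤ n`, or if `h > 1` and
`2 ^ (⌊log₂ h⌋ + 1) ∣ n`, then `tau (H × ZMod n) n` is `n - 1 + ⌊log₂ h⌋` for odd `n` and
`n + ⌊log₂ h⌋` for even `n`. -/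
theorem result {H : Type*} [AddCommGroup H] [Finite H] (n : ℕ) (hodd : Odd (Nat.card H))
    (hdvd : Nat.card H ∣ n) (hlarge : 10 ^ 6 * Nat.card H ^ 4 ≤ n)
    (hcase : ¬ 4 ∣ n ∨ (1 < Nat.card H ∧ 2 ^ (Nat.log 2 (Nat.card H) + 1) ∣ n)) :
    AddMonoid.exponent (H × ZMod n) = n ∧
      tau (H × ZMod n) n + n % 2 = n + Nat.log 2 (Nat.card H) := by
  let _ : Fintype H := Fintype.ofFinite H
  have hn : n ≠ 0 := by
    have h1 : 1 ≤ Nat.card H ^ 4 := Nat.one_le_pow _ _ Nat.card_pos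
    omega
  have : NeZero n := ⟨hn⟩
  exact ⟨exp_prod hdvd, explicit hodd hdvd hlarge hcase⟩

end Pool.Agent.Results.MP_8ac08c_co.ExplicitValue
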