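import Mathlib
import Pool.Agent.Lib.MP_8ac08c_co.Def
import Pool.Agent.Lib.MP_8ac08c_co.Struct

namespace Pool.Agent.Results.MP_8ac08c_co.LargeExponent

open Pool.Agent.Lib.MP_8ac08c_co

/-- For every finite abelian group `G` of exponent `κ` and order `h κ` with `κ ≥ 10^6 h^4`, the
number `tau G κ` (one less than the signed Harborth constant) is the maximum, over the subgroups
`K` of `G` with at least `κ` elements, of `eta K κ + dis (G ⧸ K)`. -/
theorem result {G : Type*} [AddCommGroup G] [Finite G] (h : ℕ)
    (hG : Nat.card G = h * AddMonoid.exponent G)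
    (hlarge : 10 ^ 6 * h ^ 4 ≤ AddMonoid.exponent G) :
    IsGreatest {n | ∃ K : AddSubgroup G, AddMonoid.exponent G ≤ Nat.card K ∧
        n = eta K (AddMonoid.exponent G) + dis (G ⧸ K)}
      (tau G (AddMonoid.exponent G)) := by
  let _ : Fintype G := Fintype.ofFinite G
  exact main_thm rfl hlarge hG

end Pool.Agent.Results.MP_8ac08c_co.LargeExponent
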