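import Mathlib
import Pool.Agent.Lib.MP_8ac08c_co.Def
import Pool.Agent.Lib.MP_8ac08c_co.RankTwo

namespace Pool.Agent.Results.MP_8ac08c_co.RankTwoEven

open Pool.Agent.Lib.MP_8ac08c_co

/-- The rank two groups `ZMod m × ZMod n` with `m` even, `m ∣ n` and `n ≥ 10^6 m^4`: the value of
`tau` is `n + ⌊log₂ m⌋` or one more, and it is `n + ⌊log₂ m⌋` when `3 m ≤ 2 ^ (⌊log₂ m⌋ + 2)`,
in particular when `m` is a power of two. -/
theorem result (m n : ℕ) (hm0 : 0 < m) (hm : Even m) (hmn : m ∣ n) (hlarge : 10 ^ 6 * m ^ 4 ≤ n) :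
    AddMonoid.exponent (ZMod m × ZMod n) = n ∧
      n + Nat.log 2 m ≤ tau (ZMod m × ZMod n) n ∧
      tau (ZMod m × ZMod n) n ≤ n + Nat.log 2 m + 1 ∧
      (3 * m ≤ 2 ^ (Nat.log 2 m + 2) → tau (ZMod m × ZMod n) n = n + Nat.log 2 m) := by
  have hn : n ≠ 0 := by
    have h1 : 1 ≤ m ^ 4 := Nat.one_le_pow _ _ hm0
    omega
  have : NeZero n := ⟨hn⟩
  have : NeZero m := ⟨by omega⟩
  exact ⟨exp_prod (by rw [Nat.card_zmod]; exact hmn), rank2_even hm.two_dvd hmn hlarge⟩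

end Pool.Agent.Results.MP_8ac08c_co.RankTwoEven
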