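import Mathlib
import Pool.Agent.Lib.MP_8ac08c_co.Def
import Pool.Agent.Lib.MP_8ac08c_co.OE.All

set_option exponentiation.threshold 600

namespace Pool.Agent.Results.MP_8ac08c_co.UpToSquare

open Pool.Agent.Lib.MP_8ac08c_co

/-- Let `G` be a finite abelian group with exponent `κ ≥ 2^500`, `|G| = h κ` with `h ≤ κ`,
`t = ⌊log₂ h⌋`, and exactly `2^ρ` elements `x` with `2 x = 0`, where `ρ ≤ 2`. Write
`τ = τ±(G, κ)`.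
(1) `τ ≤ κ - 1 + ρ + t`.
(2) If `κ` has a divisor `d` with `2^t ≤ d ≤ h` then `τ ≥ κ - 1 + t`, and `τ ≥ κ + t` if moreover
`ρ = 2` and `d` is even.
(3) If `h ∣ κ` then `τ` is the maximum of `eta_κ(K) + dis(G/K)` over the subgroups `K` with
`|K| ≥ κ` (and `h` is even if `ρ = 2`, so that `d = h` can be used in (2)).
(4) `ρ = 1`: `τ = κ + t` if there is `b` with `2 b ∣ κ` and `2^t ≤ b < h`, and also if `h ∣ κ`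
and `κ ≡ 2 (mod 4)`; and `τ = κ - 1 + t` if `h ∣ κ`, `4 ∣ κ` and there is no `i` with
`2 i ∣ |G|` and `2^t ≤ i < h`.
(5) `ρ = 2`: `τ = κ + t + 1` if there is `b ≥ 2^t` with `2 b ∣ κ` and `4 b (κ + 4) ≤ 3 h κ`; and
`τ ≤ κ + t` if there is no `i ≥ 2^t` with `4 i ∣ |G|` and `4 i (κ + 1) ≤ 3 h κ`. -/
theorem result (G : Type) [AddCommGroup G] [Finite G] (κ h t ρ : ℕ)
    (hκ : κ = AddMonoid.exponent G) (hcard : Nat.card G = h * κ) (ht : t = Nat.log 2 h)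
    (h2 : Nat.card {x : G // x + x = 0} = 2 ^ ρ) (hρ : ρ ≤ 2) (hbig : 2 ^ 500 ≤ κ)
    (hle : h ≤ κ) :
    tau G κ ≤ κ - 1 + ρ + t ∧
    (∀ d, d ∣ κ → 2 ^ t ≤ d → d ≤ h → κ - 1 + t ≤ tau G κ ∧
      (ρ = 2 → Even d → κ + t ≤ tau G κ)) ∧
    (h ∣ κ → (ρ = 2 → Even h) ∧ IsGreatest {m | ∃ K : AddSubgroup G, κ ≤ Nat.card K ∧
      m = eta K κ + dis (G ⧸ K)} (tau G κ)) ∧
    (ρ = 1 → ∀ b, 2 * b ∣ κ → 2 ^ t ≤ b → b < h → tau G κ = κ + t) ∧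
    (ρ = 1 → h ∣ κ → κ % 4 = 2 → tau G κ = κ + t) ∧
    (ρ = 1 → h ∣ κ → 4 ∣ κ → (∀ i, 2 * i ∣ h * κ → 2 ^ t ≤ i → h ≤ i) →
      tau G κ = κ - 1 + t) ∧
    (ρ = 2 → ∀ b, 2 * b ∣ κ → 2 ^ t ≤ b → 4 * b * (κ + 4) ≤ 3 * h * κ →
      tau G κ = κ + t + 1) ∧
    (ρ = 2 → (∀ i, 4 * i ∣ h * κ → 2 ^ t ≤ i → 3 * h * κ < 4 * i * (κ + 1)) →
      tau G κ ≤ κ + t) :=
  OE.main G κ h t ρ hκ hcard ht h2 hρ hbig hle

end Pool.Agent.Results.MP_8ac08c_co.UpToSquare
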